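import Pool.Agent.P8H89.AS.L2

set_option autoImplicit false

/-!
# Arbitrary sets of integers with arbitrary coefficients: the model with large primes
-/

namespace Pool.Agent.P8H89.IX

open Finset Filter Topology Polynomial
open Pool.Agent.P8H89.AS
open Pool.Agent.P8H13.PK
open Pool.Agent.H373R2.T7 (pz mem_pz Vz lamz Vz_pos Vz_low)
open Pool.Agent.P8H14.PL (dz WP Fam num main_QP)
open Pool.Agent.TH823.PS (Most most_mono)
open Pool.Agent.P8H14.QP (sav sav_pos sav_mono sav_large log_ev)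
open Pool.Agent.P8H14.QP.Len (sav_mul sav_one_le sav_log)

theorem corR_abs {Q : ℕ} (R : Finset ℕ) (hR : R ⊆ RQ 1 Q) (b h n : ℕ) :
    |∑ t ∈ range n, mR R (b + t) * mR R (b + t + h)| ≤
      n * ∑ r ∈ R, ∏ p ∈ r.primeFactors, xp p h + 2 * (Q : ℝ) ^ 4 := by
  have hpair : ∀ r ∈ R, ∀ r' ∈ R, |∑ t ∈ range n, hr r (b + t) * hr r' (b + t + h)| ≤
      (if r = r' then n * ∏ p ∈ r.primeFactors, xp p h else 0) + 2 * (Q : ℝ) ^ 2 := by
    intro r hr1 r' hr2
    have h0 := pair_le (W := 1) b h n (hR hr1) (hR hr2)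
    simp only [one_mul, ← add_assoc] at h0
    exact h0
  have h1 : ∑ t ∈ range n, mR R (b + t) * mR R (b + t + h) =
      ∑ r ∈ R, ∑ r' ∈ R, ∑ t ∈ range n, hr r (b + t) * hr r' (b + t + h) := by
    unfold mR
    simp_rw [sum_mul_sum]
    rw [sum_comm]
    apply sum_congr rfl
    intro r _
    rw [sum_comm]
  rw [h1]
  have h2 : |∑ r ∈ R, ∑ r' ∈ R, ∑ t ∈ range n, hr r (b + t) * hr r' (b + t + h)| ≤
      ∑ r ∈ R, ∑ r' ∈ R, ((if r = r' then n * ∏ p ∈ r.primeFactors, xp p h else 0) + 2 * (Q : ℝ) ^ 2) :=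
    (abs_sum_le_sum_abs _ _).trans (sum_le_sum fun r hr1 => (abs_sum_le_sum_abs _ _).trans
      (sum_le_sum fun r' hr2 => hpair r hr1 r' hr2))
  refine h2.trans ?_
  simp only [sum_add_distrib, sum_const, nsmul_eq_mul]
  apply add_le_add
  · have h3 : ∑ r ∈ R, ∑ r' ∈ R, (if r = r' then n * ∏ p ∈ r.primeFactors, xp p h else 0) =
        n * ∑ r ∈ R, ∏ p ∈ r.primeFactors, xp p h := by
      rw [mul_sum]
      apply sum_congr rfl
      intro r hr1
      rw [sum_ite_eq, if_pos hr1]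
    rw [h3]
  · have h3 : (R.card : ℝ) ≤ Q := by exact_mod_cast (card_le_card hR).trans (card_RQ 1 Q)
    have h4 : (0 : ℝ) ≤ R.card := Nat.cast_nonneg _
    have h5 : (R.card : ℝ) * R.card ≤ Q * Q := mul_le_mul h3 h3 h4 (by positivity)
    calc (R.card : ℝ) * (R.card * (2 * (Q : ℝ) ^ 2)) = ((R.card : ℝ) * R.card) * (2 * (Q : ℝ) ^ 2) := by ring
      _ ≤ (Q * Q) * (2 * (Q : ℝ) ^ 2) := mul_le_mul_of_nonneg_right h5 (by positivity)
      _ = 2 * (Q : ℝ) ^ 4 := by ring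


/-- mean square with coefficients -/
theorem D_sqw (Q N : ℕ) {z : ℕ} (hz : 1 ≤ z) (S : Finset ℕ) (q : ℕ → ℕ) (hq : Set.InjOn q S) (ω : ℕ → ℝ) (hω : ∀ x ∈ S, |ω x| ≤ 1) {H : ℝ} (hH0 : 0 ≤ H)
    (hH : ∀ x ∈ S, Real.log (q x) ≤ H) :
    ∑ A ∈ Icc 1 N, (∑ x ∈ S, ω x * mR (RB Q z) (A + q x)) ^ 2 ≤
      N * (Vz Q)⁻¹ * (S.card + S.card ^ 2 * ((2 * H + 2) / z)) + S.card ^ 2 * (2 * (Q : ℝ) ^ 4) := by
  have hz0 : (0 : ℝ) < z := by exact_mod_cast hz
  have hV := Vz_pos Q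
  set D : ℕ → ℝ := mR (RB Q z) with hD
  set X : ℝ := N * (Vz Q)⁻¹ with hX
  have hX0 : 0 ≤ X := by positivity
  have key : ∀ x ∈ S, ∀ y ∈ S, q x ≤ q y → |∑ A ∈ Icc 1 N, D (A + q x) * D (A + q y)| ≤
      (if x = y then X else X * ((2 * H + 2) / z)) + 2 * (Q : ℝ) ^ 4 := by
    intro x hx y hy hxy
    have h1 : ∑ A ∈ Icc 1 N, D (A + q x) * D (A + q y) =
        ∑ t ∈ range N, D (1 + q x + t) * D (1 + q x + t + (q y - q x)) := by
      refine sum_nbij' (fun A => A - 1) (fun t => t + 1) ?_ ?_ ?_ ?_ ?_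
      · intro A hA
        rw [mem_Icc] at hA
        rw [mem_range]
        omega
      · intro t ht
        rw [mem_range] at ht
        rw [mem_Icc]
        omega
      · intro A hA
        rw [mem_Icc] at hA
        omega
      · intro t _
        omega
      · intro A hA
        rw [mem_Icc] at hA
        congr 2
        · omega
        · omega
    rw [h1]
    refine (corR_abs (RB Q z) (RB_sub Q z) (1 + q x) (q y - q x) N).trans ?_
    apply add_le_add_left
    by_cases hxe : x = y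
    · rw [if_pos hxe, hxe, Nat.sub_self]
      exact mul_le_mul_of_nonneg_left (X_zero Q z) (Nat.cast_nonneg N)
    · rw [if_neg hxe]
      have h2 : q x ≠ q y := fun h => hxe (hq hx hy h)
      have h3 : Real.log ((q y - q x : ℕ) : ℝ) ≤ H := by
        refine le_trans (Real.log_le_log ?_ ?_) (hH y hy)
        · exact_mod_cast (by omega : 0 < q y - q x)
        · exact_mod_cast Nat.sub_le _ _
      have h4 := mul_le_mul_of_nonneg_left (X_pos Q hz (by omega : q y - q x ≠ 0) h3) (Nat.cast_nonneg (α := ℝ) N)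
      refine h4.trans (le_of_eq ?_)
      rw [hX]
      ring
  have key2 : ∀ x ∈ S, ∀ y ∈ S, |∑ A ∈ Icc 1 N, D (A + q x) * D (A + q y)| ≤
      (if x = y then X else X * ((2 * H + 2) / z)) + 2 * (Q : ℝ) ^ 4 := by
    intro x hx y hy
    rcases le_total (q x) (q y) with h | h
    · exact key x hx y hy h
    · have h1 := key y hy x hx h
      have h2 : ∑ A ∈ Icc 1 N, D (A + q x) * D (A + q y) = ∑ A ∈ Icc 1 N, D (A + q y) * D (A + q x) :=
        sum_congr rfl fun A _ => mul_comm _ _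
      rw [h2]
      refine h1.trans (le_of_eq ?_)
      simp only [eq_comm]
  have h1 : ∑ A ∈ Icc 1 N, (∑ x ∈ S, ω x * D (A + q x)) ^ 2 =
      ∑ x ∈ S, ∑ y ∈ S, (ω x * ω y) * ∑ A ∈ Icc 1 N, D (A + q x) * D (A + q y) := by
    simp_rw [sq, sum_mul_sum]
    rw [sum_comm]
    apply sum_congr rfl
    intro x _
    rw [sum_comm]
    apply sum_congr rfl
    intro y _
    rw [mul_sum]
    apply sum_congr rfl
    intro A _
    ring
  rw [h1]
  have h5 : ∀ x ∈ S, ∀ y ∈ S, (ω x * ω y) * ∑ A ∈ Icc 1 N, D (A + q x) * D (A + q y) ≤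
      (if x = y then X else X * ((2 * H + 2) / z)) + 2 * (Q : ℝ) ^ 4 := by
    intro x hx y hy
    refine le_trans ?_ (key2 x hx y hy)
    refine (le_abs_self _).trans ?_
    rw [abs_mul, abs_mul]
    have h6 : |ω x| * |ω y| ≤ 1 := mul_le_one₀ (hω x hx) (abs_nonneg _) (hω y hy)
    exact (mul_le_mul_of_nonneg_right h6 (abs_nonneg _)).trans (by rw [one_mul])
  refine (sum_le_sum fun x hx => sum_le_sum fun y hy => h5 x hx y hy).trans ?_
  have hW : 0 ≤ X * ((2 * H + 2) / z) := by positivity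
  have h2 : ∀ x ∈ S, ∀ y ∈ S, ((if x = y then X else X * ((2 * H + 2) / z)) + 2 * (Q : ℝ) ^ 4) ≤
      (if x = y then X else 0) + (X * ((2 * H + 2) / z) + 2 * (Q : ℝ) ^ 4) := by
    intro x _ y _
    split_ifs
    · linarith
    · linarith
  refine (sum_le_sum fun x hx => sum_le_sum fun y hy => h2 x hx y hy).trans ?_
  simp only [sum_add_distrib, sum_const, nsmul_eq_mul, sum_ite_eq]
  have h3 : ∑ x ∈ S, (if x ∈ S then X else 0) = S.card * X := by
    rw [sum_congr rfl fun x hx => if_pos hx, sum_const, nsmul_eq_mul]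
  rw [h3]
  apply le_of_eq
  ring

end Pool.Agent.P8H89.IX
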