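import Pool.Agent.P8H89.IX.L1
import Pool.Agent.P8H89.AS.Pre

set_option autoImplicit false

/-!
# Pairs of primes along two injective sequences over an arbitrary set of indices, for almost all pairs of shifts
-/

namespace Pool.Agent.P8H89.IX

open Finset Filter Topology
open Pool.Agent.P8H13.PK
open Pool.Agent.P8H89.AS (lamz_le_inv)
open Pool.Agent.H373R2.T7 (pz mem_pz Vz lamz Vz_pos Vz_inv_small)
open Pool.Agent.TH823.PS (Most most_mono)
open Pool.Agent.P8H14.QP (sav sav_pos log_ev)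

lemma th_le {N m : ℕ} (h : m ≤ 2 * N) (hN : 2 ≤ N) : th m ≤ 2 * Real.log N := by
  have hN0 : (0 : ℝ) < N := by exact_mod_cast (by omega : 0 < N)
  have hL : 0 ≤ Real.log N := Real.log_natCast_nonneg N
  unfold th
  split_ifs with hp
  · have h1 : Real.log m ≤ Real.log ((2 : ℝ) * N) := by
      apply Real.log_le_log (by exact_mod_cast hp.pos)
      exact_mod_cast h
    rw [Real.log_mul (by norm_num) hN0.ne'] at h1
    have h2 : Real.log 2 ≤ Real.log N := Real.log_le_log (by norm_num) (by exact_mod_cast hN)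
    linarith
  · linarith

open Classical in
/-- **pairs of primes** -/
theorem fin_pair (U : ℕ) : ∃ B₀ : ℕ, ∀ (E : ℕ) (ε : ℝ), 0 < ε → ∃ c : ℝ, 0 < c ∧ Most ε (fun N =>
    ∀ z : ℕ, Real.log N ^ B₀ ≤ z → (z : ℝ) ≤ Real.log N ^ E → ∀ (K : Finset ℕ) (f g : ℕ → ℕ),
      Set.InjOn f K → Set.InjOn g K → (∀ x ∈ K, 1 ≤ f x ∧ f x ≤ N) → (∀ x ∈ K, 1 ≤ g x ∧ g x ≤ N) →
      (N : ℝ) ≤ sav c N * K.card →
      (((Icc 1 N ×ˢ Icc 1 N).filter (fun q => ¬ |∑ x ∈ K, (th (q.1 + f x) * th (q.2 + g x) -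
        lamz z (q.1 + f x) * lamz z (q.2 + g x))| ≤ K.card / Real.log N ^ U)).card : ℝ) ≤
        N ^ 2 / Real.log N ^ U) := by
  obtain ⟨B₀, hl1⟩ := l1_lin (2 * U + 3)
  refine ⟨B₀, fun E ε hε => ?_⟩
  obtain ⟨c, hc, hmost⟩ := hl1 E (ε / 2) (by positivity)
  obtain ⟨N1, hN1⟩ := log_ev 16
  obtain ⟨N2, hN2⟩ := Vz_inv_small E
  refine ⟨c, hc, ?_⟩
  refine most_mono (N₁ := N1 + N2 + 16) hε hmost fun N hN hG => ?_
  intro z hz1 hz2 K f g hf hg hfN hgN hKN
  have hN0 : (0 : ℝ) < N := by exact_mod_cast (by omega : 0 < N)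
  have hL16 := hN1 N (by omega)
  set L := Real.log N with hL
  have hL1 : 1 ≤ L := by linarith
  have hL0 : 0 < L := by linarith
  have hz1' : (1 : ℝ) ≤ z := (one_le_pow₀ hL1).trans hz1
  have hzn : 1 ≤ z := by exact_mod_cast hz1'
  have hV : (Vz z)⁻¹ ≤ L := hN2 N (by omega) z hzn hz2
  have hV0 : 0 ≤ (Vz z)⁻¹ := inv_nonneg.2 (Vz_pos z).le
  set s : ℝ := (K.card : ℝ) with hs
  have hsy := sav_pos c N
  have hs0 : 0 < s := by
    by_contra hcon
    push Not at hcon
    have : sav c N * s ≤ 0 := mul_nonpos_of_nonneg_of_nonpos hsy.le hcon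
    linarith
  -- the first difference
  have hA : ∀ b ∈ Icc 1 N, ∑ a ∈ Icc 1 N, |∑ x ∈ K, (th (a + f x) - lamz z (a + f x)) * th (b + g x)| ≤
      2 * L * (s * (N / L ^ (2 * U + 3))) := by
    intro b hb
    rw [mem_Icc] at hb
    have h1 := hG z hz1 hz2 K f (fun x => th (b + g x) / (2 * L)) s hf (by
      intro x hx
      rw [abs_of_nonneg (div_nonneg (th_nonneg _) (by positivity)), div_le_one (by positivity)]
      exact th_le (by have := (hgN x hx).2; omega) (by omega)) hfN le_rfl hKN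
    have h2 : ∑ a ∈ Icc 1 N, |∑ x ∈ K, (th (a + f x) - lamz z (a + f x)) * th (b + g x)| =
        2 * L * ∑ a ∈ Icc 1 N, |∑ x ∈ K, th (b + g x) / (2 * L) * (th (a + f x) - lamz z (a + f x))| := by
      rw [mul_sum]
      apply sum_congr rfl
      intro a _
      rw [← abs_of_pos (show 0 < 2 * L by positivity), ← abs_mul, mul_sum, abs_of_pos (show 0 < 2 * L by positivity)]
      congr 1
      apply sum_congr rfl
      intro x _
      field_simp
    rw [h2]
    exact mul_le_mul_of_nonneg_left h1 (by positivity)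
  have hB : ∀ a ∈ Icc 1 N, ∑ b ∈ Icc 1 N, |∑ x ∈ K, lamz z (a + f x) * (th (b + g x) - lamz z (b + g x))| ≤
      L * (s * (N / L ^ (2 * U + 3))) := by
    intro a _
    have h1 := hG z hz1 hz2 K g (fun x => lamz z (a + f x) / L) s hg (by
      intro x hx
      rw [abs_of_nonneg (div_nonneg (Pool.Agent.H373R2.T7.lamz_nonneg _ _) hL0.le), div_le_one hL0]
      exact (lamz_le_inv _ _).trans hV) hgN le_rfl hKN
    have h2 : ∑ b ∈ Icc 1 N, |∑ x ∈ K, lamz z (a + f x) * (th (b + g x) - lamz z (b + g x))| =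
        L * ∑ b ∈ Icc 1 N, |∑ x ∈ K, lamz z (a + f x) / L * (th (b + g x) - lamz z (b + g x))| := by
      rw [mul_sum]
      apply sum_congr rfl
      intro b _
      rw [← abs_of_pos hL0, ← abs_mul, mul_sum, abs_of_pos hL0]
      congr 1
      apply sum_congr rfl
      intro x _
      field_simp
    rw [h2]
    exact mul_le_mul_of_nonneg_left h1 hL0.le
  -- the sum over the pairs
  have htot : ∑ q ∈ Icc 1 N ×ˢ Icc 1 N, |∑ x ∈ K, (th (q.1 + f x) * th (q.2 + g x) -
      lamz z (q.1 + f x) * lamz z (q.2 + g x))| ≤ 3 * L * (s * (N / L ^ (2 * U + 3))) * N := by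
    have h1 : ∀ q ∈ Icc 1 N ×ˢ Icc 1 N, |∑ x ∈ K, (th (q.1 + f x) * th (q.2 + g x) -
        lamz z (q.1 + f x) * lamz z (q.2 + g x))| ≤
        |∑ x ∈ K, (th (q.1 + f x) - lamz z (q.1 + f x)) * th (q.2 + g x)| +
          |∑ x ∈ K, lamz z (q.1 + f x) * (th (q.2 + g x) - lamz z (q.2 + g x))| := by
      intro q _
      refine le_trans (le_of_eq ?_) (abs_add_le _ _)
      rw [← sum_add_distrib]
      congr 1
      apply sum_congr rfl
      intro x _
      ring
    refine (sum_le_sum h1).trans ?_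
    rw [sum_add_distrib]
    have h2 : ∑ q ∈ Icc 1 N ×ˢ Icc 1 N, |∑ x ∈ K, (th (q.1 + f x) - lamz z (q.1 + f x)) * th (q.2 + g x)| ≤
        N * (2 * L * (s * (N / L ^ (2 * U + 3)))) := by
      rw [sum_product, sum_comm]
      refine (sum_le_sum hA).trans ?_
      rw [sum_const, Nat.card_Icc, Nat.add_sub_cancel, nsmul_eq_mul]
    have h3 : ∑ q ∈ Icc 1 N ×ˢ Icc 1 N, |∑ x ∈ K, lamz z (q.1 + f x) * (th (q.2 + g x) - lamz z (q.2 + g x))| ≤
        N * (L * (s * (N / L ^ (2 * U + 3)))) := by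
      rw [sum_product]
      refine (sum_le_sum hB).trans ?_
      rw [sum_const, Nat.card_Icc, Nat.add_sub_cancel, nsmul_eq_mul]
    linarith
  set Bd := (Icc 1 N ×ˢ Icc 1 N).filter (fun q => ¬ |∑ x ∈ K, (th (q.1 + f x) * th (q.2 + g x) -
        lamz z (q.1 + f x) * lamz z (q.2 + g x))| ≤ s / L ^ U) with hBd
  have h1 : (Bd.card : ℝ) * (s / L ^ U) ≤ 3 * L * (s * (N / L ^ (2 * U + 3))) * N := by
    refine le_trans ?_ htot
    rw [← nsmul_eq_mul, ← sum_const]
    refine (sum_le_sum fun q hq => ?_).trans (sum_le_sum_of_subset_of_nonneg (filter_subset _ _) fun _ _ _ => abs_nonneg _)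
    exact (not_le.1 (mem_filter.1 hq).2).le
  have hpos : 0 < s / L ^ U := by positivity
  rw [← le_div_iff₀ hpos] at h1
  refine h1.trans ?_
  have h2 : 3 * L * (s * (N / L ^ (2 * U + 3))) * N / (s / L ^ U) = (3 / L ^ 2) * ((N : ℝ) ^ 2 / L ^ U) := by
    have e : L ^ (2 * U + 3) = L ^ U * L ^ U * L ^ 3 := by ring
    rw [e]
    field_simp
  rw [h2]
  have h3 : 3 / L ^ 2 ≤ 1 := by
    rw [div_le_one (by positivity)]
    nlinarith
  have h4 : 0 ≤ (N : ℝ) ^ 2 / L ^ U := by positivity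
  nlinarith

end Pool.Agent.P8H89.IX
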