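import Pool.Agent.P8H89.IX.Var

set_option autoImplicit false

/-!
# Arbitrary sets of integers with arbitrary coefficients: the first moment over the shifts, at most scales
-/

namespace Pool.Agent.P8H89.IX

open Finset Filter Topology Polynomial
open Pool.Agent.P8H89.AS (Phi Phi_nonneg dz_nat Phi_le exists_k mR RB RS mo_split sum_lamz_sub th_le_Lam dev_sum l1_of_sq)
open Pool.Agent.P8H13.PK
open Pool.Agent.H373R2.T7 (pz mem_pz Vz lamz Vz_pos Vz_low)
open Pool.Agent.P8H14.PL (dz WP Fam num main_QP)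
open Pool.Agent.TH823.PS (Most most_mono)
open Pool.Agent.P8H14.QP (sav sav_pos sav_mono sav_large log_ev)
open Pool.Agent.P8H14.QP.Len (sav_mul sav_one_le sav_log)

/-- a nonnegative function along the shifts -/
lemma sum_shift {N : ℕ} {S : Finset ℕ} {f : ℕ → ℕ} (hS : ∀ x ∈ S, f x ≤ 2 * N) (g : ℕ → ℝ) (hg : ∀ n, 0 ≤ g n) :
    ∑ n ∈ Icc 1 N, ∑ x ∈ S, g (n + f x) ≤ S.card * ∑ m ∈ Icc 1 (3 * N), g m := by
  rw [sum_comm, ← nsmul_eq_mul, ← sum_const]
  apply sum_le_sum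
  intro x hx
  rw [← sum_image (f := g) (g := fun n => n + f x) (fun a _ b _ h => by simpa using h)]
  apply sum_le_sum_of_subset_of_nonneg
  · intro m hm
    rw [mem_image] at hm
    obtain ⟨n, hn, rfl⟩ := hm
    have := hS x hx
    rw [mem_Icc] at hn ⊢
    omega
  · intro m _ _
    exact hg m

/-- **the first moment, at most scales** -/
theorem l1_lin (W : ℕ) : ∃ B₀ : ℕ, ∀ (E : ℕ) (ε : ℝ), 0 < ε → ∃ c : ℝ, 0 < c ∧ Most ε (fun N =>
    ∀ z : ℕ, Real.log N ^ B₀ ≤ z → (z : ℝ) ≤ Real.log N ^ E → ∀ (S : Finset ℕ) (f : ℕ → ℕ) (ω : ℕ → ℝ) (s : ℝ),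
      Set.InjOn f S → (∀ x ∈ S, |ω x| ≤ 1) →
      (∀ x ∈ S, 1 ≤ f x ∧ f x ≤ N) → (S.card : ℝ) ≤ s → (N : ℝ) ≤ sav c N * s →
      ∑ n ∈ Icc 1 N, |∑ x ∈ S, ω x * (th (n + f x) - lamz z (n + f x))| ≤ s * (N / Real.log N ^ W)) := by
  obtain ⟨C, N1, hV⟩ := Vz_low
  refine ⟨C + 2 * W + 12, fun E ε hε => ?_⟩
  set B₀ := C + 2 * W + 12 with hB₀
  obtain ⟨c0, hc0, hmost⟩ := main_QP 0 (2 * W + 8) 3 1 (by norm_num) le_rfl {(X : ℤ[X])} (ε := ε / 2) (by positivity)
  obtain ⟨M, hPhi⟩ := Phi_le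
  obtain ⟨N2, hN2⟩ := log_ev (max M 16)
  obtain ⟨N3, hN3, hN3'⟩ := sav_log hc0 (B₀ + C + 2 * W + 12) (N1 + 16)
  obtain ⟨N4, hN4, hN4'⟩ := sav_log (c := c0 / 2) (by positivity) (2 * W + 16) 16
  obtain ⟨N5, hN5⟩ := exists_k E (2 * E + W + 16) hc0
  refine ⟨c0 / 2, by positivity, ?_⟩
  refine most_mono (N₁ := N1 + N2 + N3 + N4 + N5 + 16) hε hmost fun N hN hG => ?_
  obtain ⟨⟨Q, hQ1, hQ2, hWP⟩, _, _⟩ := hG
  intro z hz1 hz2 S f ω s hf hω hS hSs hsN
  have hN16 : 16 ≤ N := by omega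
  have hN0 : (0 : ℝ) < N := by exact_mod_cast (by omega : 0 < N)
  have hLM := hN2 N (by omega)
  have hsl := hN3' N (by omega)
  have hsl2 := hN4' N (by omega)
  set L := Real.log N with hL
  have hL16 : 16 ≤ L := (le_max_right _ _).trans hLM
  have hLMM : M ≤ L := (le_max_left _ _).trans hLM
  have hL0 : 0 < L := by linarith
  have hL1 : 1 ≤ L := by linarith
  set y := sav c0 N with hy
  set y' := sav (c0 / 2) N with hy'
  have hyy : y' * y' = y := by rw [hy', hy, sav_mul, add_halves]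
  have hy'0 : 0 < y' := sav_pos _ _
  have hy0 : 0 < y := sav_pos _ _
  have hLB : 1 ≤ L ^ (B₀ + C + 2 * W + 12) := one_le_pow₀ hL1
  have hN1r : (0 : ℝ) ≤ N1 := Nat.cast_nonneg _
  have hy16 : 16 ≤ y := by nlinarith
  have hQL : (N1 + 16) * L ^ (B₀ + C + 2 * W + 12) ≤ Q := hsl.trans hQ1
  have hQr : (1 : ℝ) ≤ Q := by linarith
  have hQn : 1 ≤ Q := by exact_mod_cast hQr
  have hQN1 : N1 ≤ Q := by
    have : (N1 : ℝ) ≤ Q := by nlinarith
    exact_mod_cast this
  have hQ8 : (Q : ℝ) ^ 8 ≤ N := (pow_le_pow_right₀ hQr (by norm_num)).trans hQ2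
  have hQ4 : (Q : ℝ) ^ 4 ≤ √(N : ℝ) := by
    rw [Real.le_sqrt (by positivity) hN0.le, ← pow_mul]
    exact hQ8
  have hQ4N : (Q : ℝ) ^ 4 ≤ N := (pow_le_pow_right₀ hQr (by norm_num)).trans hQ8
  have hQN : Q ≤ N := by
    have : (Q : ℝ) ≤ N := (le_self_pow₀ hQr (by norm_num)).trans hQ8
    exact_mod_cast this
  -- sizes of `s`
  have hs0 : 0 < s := by
    by_contra hcon
    push Not at hcon
    have : y' * s ≤ 0 := mul_nonpos_of_nonneg_of_nonpos hy'0.le hcon
    linarith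
  have hPhi' := hPhi N Q (by omega) hLMM hQn hQN hQ4N
  -- the variance
  have hvar := var (A := 2 * W + 8) (Q := Q) (N := N) (y := y) (y' := y') (s := s) (by omega) (by linarith) hy'0 hyy.le
    hL0 hWP (hPhi'.trans (by
      apply mul_le_mul_of_nonneg_left _ hN0.le
      exact pow_le_pow_right₀ hL1 (by omega))) hf hω hS hs0 hSs hsN
  have hT1 : ∑ n ∈ Icc 1 N, |TT Q S f ω n| ≤ s * (N * (1 / L ^ (W + 1))) := by
    apply l1_of_sq _ (by positivity) hs0.le
    refine hvar.trans ?_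
    apply mul_le_mul_of_nonneg_left _ (by positivity)
    have h1 : (N : ℝ) / L ^ (2 * W + 8) ≤ N * (1 / (2 * L ^ (2 * W + 2))) := by
      rw [mul_one_div]
      apply div_le_div_of_nonneg_left hN0.le (by positivity)
      calc 2 * L ^ (2 * W + 2) ≤ L ^ 6 * L ^ (2 * W + 2) := by
            apply mul_le_mul_of_nonneg_right _ (by positivity)
            calc (2 : ℝ) ≤ L := by linarith
              _ ≤ L ^ 6 := le_self_pow₀ hL1 (by norm_num)
        _ = L ^ (2 * W + 8) := by ring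
    have h2 : Phi Q N / y' ≤ N * (1 / (2 * L ^ (2 * W + 2))) := by
      rw [mul_one_div, div_le_div_iff₀ hy'0 (by positivity)]
      calc Phi Q N * (2 * L ^ (2 * W + 2)) ≤ (N * L ^ 4) * (2 * L ^ (2 * W + 2)) :=
            mul_le_mul_of_nonneg_right hPhi' (by positivity)
        _ = N * (2 * L ^ (2 * W + 6)) := by ring
        _ ≤ N * y' := by
            apply mul_le_mul_of_nonneg_left _ hN0.le
            refine le_trans ?_ hsl2
            calc 2 * L ^ (2 * W + 6) ≤ 16 * L ^ (2 * W + 6) := by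
                  apply mul_le_mul_of_nonneg_right (by norm_num) (by positivity)
              _ ≤ 16 * L ^ (2 * W + 16) := by
                  apply mul_le_mul_of_nonneg_left _ (by norm_num)
                  exact pow_le_pow_right₀ hL1 (by omega)
    have h3 : (N : ℝ) * (1 / (2 * L ^ (2 * W + 2))) + N * (1 / (2 * L ^ (2 * W + 2))) = N * (1 / L ^ (W + 1)) ^ 2 := by
      field_simp
      ring
    linarith
  -- the part with large primes
  have hz1' : (1 : ℝ) ≤ z := (one_le_pow₀ hL1).trans hz1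
  have hzn : 1 ≤ z := by exact_mod_cast hz1'
  have hVQ : (Vz Q)⁻¹ ≤ L ^ C := by
    have h1 := hV Q hQN1
    have h2 : Real.log Q ≤ L := Real.log_le_log (by linarith) (by exact_mod_cast hQN)
    have h3 : 0 < Real.log Q := by
      apply Real.log_pos
      nlinarith
    rw [inv_le_comm₀ (Vz_pos Q) (by positivity), ← one_div]
    refine le_trans ?_ h1
    apply one_div_le_one_div_of_le (by positivity)
    exact pow_le_pow_left₀ h3.le h2 C
  have hVQ0 : 0 ≤ (Vz Q)⁻¹ := inv_nonneg.2 (Vz_pos Q).le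
  have hH : ∀ x ∈ S, Real.log (f x) ≤ 2 * L := by
    intro x hx
    have h3 : Real.log (f x) ≤ Real.log (N : ℝ) := by
      apply Real.log_le_log
      · exact_mod_cast (hS x hx).1
      · exact_mod_cast (hS x hx).2
    linarith
  have hD := D_sqw Q N hzn S f hf ω hω (H := 2 * L) (by positivity) hH
  have hD1 : ∑ n ∈ Icc 1 N, |∑ x ∈ S, ω x * mR (RB Q z) (n + f x)| ≤ s * (N * (1 / L ^ (W + 1))) := by
    apply l1_of_sq _ (by positivity) hs0.le
    refine hD.trans ?_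
    have hSc : (0 : ℝ) ≤ S.card := Nat.cast_nonneg _
    have hS2 : (S.card : ℝ) ^ 2 ≤ s ^ 2 := pow_le_pow_left₀ hSc hSs 2
    -- `L ^ (C + 2 W + 4) ≤ s`
    have h1 : 4 * L ^ (C + 2 * W + 2) ≤ s := by
      have h3 : y' ≤ Q := by
        refine le_trans ?_ hQ1
        rw [← hyy]
        have : 1 ≤ y' := by
          refine le_trans ?_ hsl2
          have : 1 ≤ L ^ (2 * W + 16) := one_le_pow₀ hL1
          linarith
        nlinarith
      have h4 : (Q : ℝ) ^ 8 ≤ Q * s := hQ8.trans (hsN.trans (mul_le_mul_of_nonneg_right h3 hs0.le))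
      have h5 : (Q : ℝ) ^ 7 ≤ s := by
        have h6 : (Q : ℝ) * (Q : ℝ) ^ 7 ≤ Q * s := by
          calc (Q : ℝ) * (Q : ℝ) ^ 7 = (Q : ℝ) ^ 8 := by ring
            _ ≤ _ := h4
        exact le_of_mul_le_mul_left h6 (by linarith)
      have h6 : (Q : ℝ) ≤ (Q : ℝ) ^ 7 := le_self_pow₀ hQr (by norm_num)
      have h7 : L ^ (C + 2 * W + 2) ≤ L ^ (B₀ + C + 2 * W + 12) := pow_le_pow_right₀ hL1 (by omega)
      nlinarith
    have h2 : (S.card : ℝ) ≤ s ^ 2 * (1 / (4 * L ^ (C + 2 * W + 2))) := by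
      refine hSs.trans ?_
      rw [mul_one_div, le_div_iff₀ (by positivity)]
      nlinarith
    have h3 : (2 * (2 * L) + 2) / (z : ℝ) ≤ 1 / (4 * L ^ (C + 2 * W + 2)) := by
      rw [div_le_div_iff₀ (by linarith) (by positivity), one_mul]
      refine le_trans ?_ hz1
      calc (2 * (2 * L) + 2) * (4 * L ^ (C + 2 * W + 2)) ≤ (L ^ 4) * (4 * L ^ (C + 2 * W + 2)) := by
            apply mul_le_mul_of_nonneg_right _ (by positivity)
            have : (16 : ℝ) ^ 3 ≤ L ^ 3 := pow_le_pow_left₀ (by norm_num) hL16 3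
            nlinarith
        _ ≤ L ^ 10 * L ^ (C + 2 * W + 2) := by
            have h4 : 4 * L ^ 4 ≤ L ^ 10 := by
              calc 4 * L ^ 4 ≤ L ^ 6 * L ^ 4 := by
                    apply mul_le_mul_of_nonneg_right _ (by positivity)
                    calc (4 : ℝ) ≤ L := by linarith
                      _ ≤ L ^ 6 := le_self_pow₀ hL1 (by norm_num)
                _ = L ^ 10 := by ring
            calc (L ^ 4) * (4 * L ^ (C + 2 * W + 2)) = (4 * L ^ 4) * L ^ (C + 2 * W + 2) := by ring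
              _ ≤ _ := mul_le_mul_of_nonneg_right h4 (by positivity)
        _ = L ^ B₀ := by rw [hB₀]; ring
    have h4 : 2 * (Q : ℝ) ^ 4 ≤ N * (1 / (4 * L ^ (2 * W + 2))) := by
      rw [mul_one_div, le_div_iff₀ (by positivity)]
      have h5 : 8 * L ^ (2 * W + 2) ≤ (Q : ℝ) ^ 4 := by
        have h6 : (Q : ℝ) ≤ (Q : ℝ) ^ 4 := le_self_pow₀ hQr (by norm_num)
        have h7 : L ^ (2 * W + 2) ≤ L ^ (B₀ + C + 2 * W + 12) := pow_le_pow_right₀ hL1 (by omega)
        nlinarith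
      calc 2 * (Q : ℝ) ^ 4 * (4 * L ^ (2 * W + 2)) = (Q : ℝ) ^ 4 * (8 * L ^ (2 * W + 2)) := by ring
        _ ≤ (Q : ℝ) ^ 4 * (Q : ℝ) ^ 4 := mul_le_mul_of_nonneg_left h5 (by positivity)
        _ = (Q : ℝ) ^ 8 := by ring
        _ ≤ N := hQ8
    have h5 : (N : ℝ) * (Vz Q)⁻¹ * (S.card + (S.card : ℝ) ^ 2 * ((2 * (2 * L) + 2) / z)) ≤
        N * L ^ C * (s ^ 2 * (1 / (4 * L ^ (C + 2 * W + 2))) + s ^ 2 * (1 / (4 * L ^ (C + 2 * W + 2)))) := by
      apply mul_le_mul
      · exact mul_le_mul_of_nonneg_left hVQ hN0.le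
      · apply add_le_add h2
        exact mul_le_mul hS2 h3 (by positivity) (by positivity)
      · positivity
      · positivity
    have h6 : (N : ℝ) * L ^ C * (s ^ 2 * (1 / (4 * L ^ (C + 2 * W + 2))) + s ^ 2 * (1 / (4 * L ^ (C + 2 * W + 2)))) =
        s ^ 2 * (N * (1 / (2 * L ^ (2 * W + 2)))) := by
      field_simp
      ring
    have h7 : (S.card : ℝ) ^ 2 * (2 * (Q : ℝ) ^ 4) ≤ s ^ 2 * (N * (1 / (4 * L ^ (2 * W + 2)))) :=
      mul_le_mul hS2 h4 (by positivity) (by positivity)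
    have h8 : s ^ 2 * (N * (1 / (2 * L ^ (2 * W + 2)))) + s ^ 2 * (N * (1 / (4 * L ^ (2 * W + 2)))) ≤
        s ^ 2 * (N * (1 / L ^ (W + 1)) ^ 2) := by
      have h9 : s ^ 2 * (N * (1 / L ^ (W + 1)) ^ 2) = s ^ 2 * (N * (1 / (2 * L ^ (2 * W + 2)))) +
          2 * (s ^ 2 * (N * (1 / (4 * L ^ (2 * W + 2))))) := by
        have h10 : L ^ (2 * W + 2) = L ^ (W + 1) * L ^ (W + 1) := by ring
        rw [h10]
        field_simp
        ring
      have : 0 ≤ s ^ 2 * (N * (1 / (4 * L ^ (2 * W + 2)))) := by positivity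
      linarith
    linarith
  -- the smooth part
  have h3N : Real.log ((3 * N : ℕ) : ℝ) ≤ 2 * L := by
    push_cast
    rw [Real.log_mul (by norm_num) hN0.ne']
    have h1 : Real.log 3 ≤ Real.log N := Real.log_le_log (by norm_num) (by exact_mod_cast (by omega : 3 ≤ N))
    linarith
  have h3N0 : 0 ≤ Real.log ((3 * N : ℕ) : ℝ) := Real.log_natCast_nonneg _
  have hSx : ∀ x ∈ S, f x ≤ 2 * N := fun x hx => by have := (hS x hx).2; omega
  have hz16 : (16 : ℝ) ≤ z := by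
    refine le_trans ?_ hz1
    exact hL16.trans (le_self_pow₀ hL1 (by omega))
  have hz2n : 2 ≤ z := by
    have : (2 : ℝ) ≤ z := by linarith
    exact_mod_cast this
  obtain ⟨k, hk1, hk2⟩ := hN5 N (by omega) z Q hz2n hz2 hQ1
  have hM1 : ∑ n ∈ Icc 1 N, ∑ x ∈ S, |lamz z (n + f x) - mR (RS Q z) (n + f x)| ≤ s * (N * (1 / L ^ (W + 1))) := by
    refine (sum_shift hSx (fun n => |lamz z n - mR (RS Q z) n|) fun n => abs_nonneg _).trans ?_
    have h1 := sum_lamz_sub hzn hk1 (3 * N)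
    have h2 : (((3 * N : ℕ) : ℝ)) * ((z : ℝ) ^ 2 * (1 + Real.log ((3 * N : ℕ) : ℝ)) ^ 4 / 2 ^ k) ≤ N * (1 / L ^ (W + 1)) := by
      have h3 : (z : ℝ) ^ 2 ≤ L ^ (2 * E) := by
        calc (z : ℝ) ^ 2 ≤ (L ^ E) ^ 2 := pow_le_pow_left₀ (by linarith) hz2 2
          _ = L ^ (2 * E) := by rw [← pow_mul, mul_comm]
      have h4 : (1 + Real.log ((3 * N : ℕ) : ℝ)) ^ 4 ≤ (3 * L) ^ 4 := pow_le_pow_left₀ (by linarith) (by linarith) 4
      have h5 : (z : ℝ) ^ 2 * (1 + Real.log ((3 * N : ℕ) : ℝ)) ^ 4 ≤ L ^ (2 * E) * (3 * L) ^ 4 :=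
        mul_le_mul h3 h4 (by positivity) (by positivity)
      have h6 : 3 * (L ^ (2 * E) * (3 * L) ^ 4) * L ^ (W + 1) ≤ 2 ^ k := by
        refine le_trans ?_ hk2
        have h7 : (243 : ℝ) ≤ L ^ 11 := by
          calc (243 : ℝ) ≤ 16 ^ 11 := by norm_num
            _ ≤ L ^ 11 := pow_le_pow_left₀ (by norm_num) hL16 11
        calc 3 * (L ^ (2 * E) * (3 * L) ^ 4) * L ^ (W + 1) = 243 * L ^ (2 * E + W + 5) := by ring
          _ ≤ L ^ 11 * L ^ (2 * E + W + 5) := mul_le_mul_of_nonneg_right h7 (by positivity)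
          _ = L ^ (2 * E + W + 16) := by ring
      have h8 : (0 : ℝ) < 2 ^ k := by positivity
      push_cast at h5 ⊢
      rw [mul_one_div, mul_div_assoc', div_le_div_iff₀ h8 (by positivity)]
      calc 3 * (N : ℝ) * ((z : ℝ) ^ 2 * (1 + Real.log (3 * (N : ℝ))) ^ 4) * L ^ (W + 1) =
            N * (3 * ((z : ℝ) ^ 2 * (1 + Real.log (3 * (N : ℝ))) ^ 4) * L ^ (W + 1)) := by ring
        _ ≤ N * (3 * (L ^ (2 * E) * (3 * L) ^ 4) * L ^ (W + 1)) := by
            apply mul_le_mul_of_nonneg_left _ hN0.le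
            apply mul_le_mul_of_nonneg_right _ (by positivity)
            exact mul_le_mul_of_nonneg_left h5 (by norm_num)
        _ ≤ N * 2 ^ k := mul_le_mul_of_nonneg_left h6 hN0.le
    exact mul_le_mul hSs (h1.trans h2) (sum_nonneg fun _ _ => abs_nonneg _) hs0.le
  -- the prime powers
  have hP1 : ∑ n ∈ Icc 1 N, ∑ x ∈ S, (ArithmeticFunction.vonMangoldt (n + f x) - th (n + f x)) ≤
      s * (N * (1 / L ^ (W + 1))) := by
    refine (sum_shift hSx (fun n => ArithmeticFunction.vonMangoldt n - th n) fun n => sub_nonneg.2 (th_le_Lam n)).trans ?_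
    have h1 := dev_sum (3 * N) (by omega)
    have hsq0 : 0 ≤ √(N : ℝ) := Real.sqrt_nonneg _
    have h2 : 2 * √((3 * N : ℕ) : ℝ) * Real.log ((3 * N : ℕ) : ℝ) ≤ N * (1 / L ^ (W + 1)) := by
      have h3 : √((3 * N : ℕ) : ℝ) ≤ 2 * √(N : ℝ) := by
        rw [Real.sqrt_le_left (by positivity), mul_pow, Real.sq_sqrt hN0.le]
        push_cast
        linarith
      have h4 : 8 * L ^ (W + 2) ≤ √(N : ℝ) := by
        refine le_trans ?_ hQ4
        have h6 : (Q : ℝ) ≤ (Q : ℝ) ^ 4 := le_self_pow₀ hQr (by norm_num)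
        have h7 : L ^ (W + 2) ≤ L ^ (B₀ + C + 2 * W + 12) := pow_le_pow_right₀ hL1 (by omega)
        nlinarith
      rw [mul_one_div, le_div_iff₀ (by positivity)]
      calc 2 * √((3 * N : ℕ) : ℝ) * Real.log ((3 * N : ℕ) : ℝ) * L ^ (W + 1) ≤
            2 * (2 * √(N : ℝ)) * (2 * L) * L ^ (W + 1) := by
            apply mul_le_mul_of_nonneg_right _ (by positivity)
            apply mul_le_mul _ h3N h3N0 (by positivity)
            exact mul_le_mul_of_nonneg_left h3 (by norm_num)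
        _ = √(N : ℝ) * (8 * L ^ (W + 2)) := by ring
        _ ≤ √(N : ℝ) * √(N : ℝ) := mul_le_mul_of_nonneg_left h4 hsq0
        _ = N := Real.mul_self_sqrt hN0.le
    exact mul_le_mul hSs (h1.trans h2) (sum_nonneg fun n _ => sub_nonneg.2 (th_le_Lam n)) hs0.le
  -- the sum
  have hpt : ∀ n ∈ Icc 1 N, |∑ x ∈ S, ω x * (th (n + f x) - lamz z (n + f x))| ≤
      ∑ x ∈ S, (ArithmeticFunction.vonMangoldt (n + f x) - th (n + f x)) + |TT Q S f ω n| +
        |∑ x ∈ S, ω x * mR (RB Q z) (n + f x)| + ∑ x ∈ S, |lamz z (n + f x) - mR (RS Q z) (n + f x)| := by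
    intro n hn
    rw [mem_Icc] at hn
    have e1 : ∑ x ∈ S, ω x * (th (n + f x) - lamz z (n + f x)) =
        -(∑ x ∈ S, ω x * (ArithmeticFunction.vonMangoldt (n + f x) - th (n + f x))) + TT Q S f ω n +
          ∑ x ∈ S, ω x * mR (RB Q z) (n + f x) - ∑ x ∈ S, ω x * (lamz z (n + f x) - mR (RS Q z) (n + f x)) := by
      unfold TT
      rw [← sum_neg_distrib, ← sum_add_distrib, ← sum_add_distrib, ← sum_sub_distrib]
      apply sum_congr rfl
      intro x _
      rw [dz_nat (by omega), mo_split Q z]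
      ring
    have hab : ∀ g : ℕ → ℝ, |∑ x ∈ S, ω x * g x| ≤ ∑ x ∈ S, |g x| := by
      intro g
      refine (abs_sum_le_sum_abs _ _).trans (sum_le_sum fun x hx => ?_)
      rw [abs_mul]
      exact (mul_le_mul_of_nonneg_right (hω x hx) (abs_nonneg _)).trans (by rw [one_mul])
    have e2 : |∑ x ∈ S, ω x * (ArithmeticFunction.vonMangoldt (n + f x) - th (n + f x))| ≤
        ∑ x ∈ S, (ArithmeticFunction.vonMangoldt (n + f x) - th (n + f x)) := by
      refine (hab _).trans (le_of_eq (sum_congr rfl fun x _ => ?_))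
      exact abs_of_nonneg (sub_nonneg.2 (th_le_Lam _))
    have e3 := hab (fun x => lamz z (n + f x) - mR (RS Q z) (n + f x))
    rw [e1]
    have e4 := abs_le.1 (le_refl |TT Q S f ω n|)
    have e5 := abs_le.1 (le_refl |∑ x ∈ S, ω x * mR (RB Q z) (n + f x)|)
    have e6 := abs_le.1 e3
    have e7 := abs_le.1 e2
    rw [abs_le]
    constructor
    · linarith [e4.1, e5.1, e6.2, e7.2]
    · linarith [e4.2, e5.2, e6.1, e7.1]
  refine (sum_le_sum hpt).trans ?_
  rw [sum_add_distrib, sum_add_distrib, sum_add_distrib]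
  have h9 : 4 * (s * (N * (1 / L ^ (W + 1)))) ≤ s * (N / L ^ W) := by
    have h10 : s * (N / L ^ W) = L * (s * (N * (1 / L ^ (W + 1)))) := by
      rw [pow_succ]
      field_simp
    rw [h10]
    apply mul_le_mul_of_nonneg_right (by linarith) (by positivity)
  linarith

end Pool.Agent.P8H89.IX
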