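import Pool.Agent.P8H89.IX.Dsq

set_option autoImplicit false

/-!
# Arbitrary sets of integers with arbitrary coefficients: the variance
-/

namespace Pool.Agent.P8H89.IX

open Finset Filter Topology Polynomial
open Pool.Agent.P8H89.AS (Phi Phi_nonneg dz_nat shift_sq)
open Pool.Agent.P8H13.PK
open Pool.Agent.P8H14.PL (dz WP Fam num main_QP)

/-- the difference along the shifts `f x`, with coefficients -/
noncomputable def TT (Q : ℕ) (S : Finset ℕ) (f : ℕ → ℕ) (ω : ℕ → ℝ) (n : ℕ) : ℝ :=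
  ∑ x ∈ S, ω x * dz Q ((n + f x : ℕ) : ℤ)

lemma TT_sq (Q : ℕ) {N : ℕ} {S : Finset ℕ} {f : ℕ → ℕ} {ω : ℕ → ℝ} (hω : ∀ x ∈ S, |ω x| ≤ 1)
    (hS : ∀ x ∈ S, f x ≤ 2 * N) : ∑ n ∈ Icc 1 N, TT Q S f ω n ^ 2 ≤ S.card ^ 2 * Phi Q N := by
  have h1 : ∀ n ∈ Icc 1 N, TT Q S f ω n ^ 2 ≤ S.card * ∑ x ∈ S, (dz Q ((n + f x : ℕ) : ℤ)) ^ 2 := by
    intro n _
    refine (sq_sum_le_card_mul_sum_sq (s := S) (f := fun x => ω x * dz Q ((n + f x : ℕ) : ℤ))).trans ?_
    apply mul_le_mul_of_nonneg_left _ (Nat.cast_nonneg _)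
    apply sum_le_sum
    intro x hx
    rw [mul_pow]
    have h2 : ω x ^ 2 ≤ 1 := by
      rw [← sq_abs]
      exact pow_le_one₀ (abs_nonneg _) (hω x hx)
    exact (mul_le_mul_of_nonneg_right h2 (sq_nonneg _)).trans (by rw [one_mul])
  refine (sum_le_sum h1).trans ?_
  rw [← mul_sum, sum_comm]
  have h2 : ∑ x ∈ S, ∑ n ∈ Icc 1 N, (dz Q ((n + f x : ℕ) : ℤ)) ^ 2 ≤ ∑ _x ∈ S, Phi Q N :=
    sum_le_sum fun x hx => shift_sq Q (hS x hx)
  rw [sum_const, nsmul_eq_mul] at h2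
  calc _ ≤ (S.card : ℝ) * (S.card * Phi Q N) := mul_le_mul_of_nonneg_left h2 (Nat.cast_nonneg _)
    _ = _ := by ring

/-- **the variance** -/
theorem var {A Q N : ℕ} {y y' s : ℝ} (hN : 1 ≤ N) (hy4 : 4 ≤ y) (hy' : 0 < y') (hyy : y' * y' ≤ y)
    (hlog : 0 < Real.log N) (hW : WP A 3 1 {(X : ℤ[X])} Q y N) (hPhi : Phi Q N ≤ N * Real.log N ^ A)
    {S : Finset ℕ} {f : ℕ → ℕ} (hf : Set.InjOn f S) {ω : ℕ → ℝ} (hω : ∀ x ∈ S, |ω x| ≤ 1)
    (hS : ∀ x ∈ S, 1 ≤ f x ∧ f x ≤ N) (hs : 0 < s) (hSs : (S.card : ℝ) ≤ s) (hsN : (N : ℝ) ≤ y' * s) :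
    ∑ n ∈ Icc 1 N, TT Q S f ω n ^ 2 ≤ s ^ 2 * (N / Real.log N ^ A + Phi Q N / y') := by
  classical
  have hN0 : (0 : ℝ) < N := by exact_mod_cast hN
  have hy0 : 0 < y := by linarith
  have hPn := Phi_nonneg Q N
  have hF : Fam 3 1 {(X : ℤ[X])} y N N (fun m => (m : ℤ)) := by
    refine ⟨?_, Or.inr ⟨X, by simp, by rw [natDegree_X], ?_, 0, ?_⟩⟩
    · intro m hm
      rw [mem_Icc] at hm
      rw [abs_of_nonneg (by positivity)]
      have h2 : ((3 : ℕ) : ℤ) * (N : ℤ) = ((3 * N : ℕ) : ℤ) := by push_cast; ring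
      rw [h2]
      change ((m : ℕ) : ℤ) ≤ _
      exact_mod_cast (by omega : m ≤ 3 * N)
    · rw [natDegree_X, pow_one]
      nlinarith
    · intro m _
      rw [eval_X, zero_add]
  -- the weight
  set w : ℕ → ℂ := fun n => if n ≤ N then ((TT Q S f ω n / s : ℝ) : ℂ) else 0 with hw
  have hw2 : ∑ n ∈ Icc 1 (3 * N / 1), ‖w n‖ ^ 2 = ∑ n ∈ Icc 1 N, (TT Q S f ω n / s) ^ 2 := by
    rw [Nat.div_one]
    have h1 : Icc 1 N = (Icc 1 (3 * N)).filter (fun n => n ≤ N) := by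
      ext n
      rw [mem_filter, mem_Icc, mem_Icc]
      omega
    rw [h1, sum_filter]
    apply sum_congr rfl
    intro n _
    rw [hw]
    beta_reduce
    split_ifs
    · rw [Complex.norm_real, Real.norm_eq_abs, sq_abs]
    · simp
  have hw3 : ∑ n ∈ Icc 1 N, (TT Q S f ω n / s) ^ 2 ≤ Phi Q N := by
    have h1 : ∑ n ∈ Icc 1 N, (TT Q S f ω n / s) ^ 2 = (∑ n ∈ Icc 1 N, TT Q S f ω n ^ 2) / s ^ 2 := by
      rw [sum_div]
      exact sum_congr rfl fun n _ => div_pow _ _ _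
    rw [h1, div_le_iff₀ (by positivity)]
    refine (TT_sq Q hω fun x hx => by have := (hS x hx).2; omega).trans ?_
    rw [mul_comm]
    apply mul_le_mul_of_nonneg_left _ hPn
    exact pow_le_pow_left₀ (Nat.cast_nonneg _) hSs 2
  have hWP := hW N (fun m => (m : ℤ)) hF 1 (by push_cast; linarith) (fun _ => 1) (fun _ => w) (fun _ => le_rfl)
    (fun _ => by rw [hw2]; exact hw3.trans hPhi)
  set E : Finset ℕ := (Icc 1 N).filter (fun m => ∃ _i : Fin 1, ¬ ∀ X : ℕ, 1 * X ≤ 3 * N →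
      ‖∑ n ∈ Icc 1 X, w n * ((dz Q (((1 : ℕ) : ℤ) * n + ((m : ℕ) : ℤ)) : ℝ) : ℂ)‖ ≤ N / Real.log N ^ A) with hE
  have hEc : (E.card : ℝ) ≤ N / y := by
    unfold num at hWP
    refine le_trans (le_of_eq ?_) hWP
    rw [hE]
    congr 2
    ext m
    simp
  -- the inner sums
  set I : ℕ → ℝ := fun x => ∑ n ∈ Icc 1 N, (TT Q S f ω n / s) * dz Q ((n + f x : ℕ) : ℤ) with hI
  have hIgood : ∀ x ∈ S, f x ∉ E → |I x| ≤ N / Real.log N ^ A := by
    intro x hx hxE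
    have hx1 := hS x hx
    rw [hE, mem_filter] at hxE
    push Not at hxE
    have h1 := hxE (mem_Icc.2 hx1) 0 N (by omega)
    have h2 : ∑ n ∈ Icc 1 N, w n * ((dz Q (((1 : ℕ) : ℤ) * n + ((f x : ℕ) : ℤ)) : ℝ) : ℂ) = ((I x : ℝ) : ℂ) := by
      rw [hI]
      push_cast
      apply sum_congr rfl
      intro n hn
      rw [mem_Icc] at hn
      rw [hw]
      beta_reduce
      rw [if_pos hn.2]
      push_cast
      congr 4
      ring
    rw [h2, Complex.norm_real, Real.norm_eq_abs] at h1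
    exact h1
  have hIall : ∀ x ∈ S, |I x| ≤ Phi Q N := by
    intro x hx
    have h1 := sum_mul_sq_le_sq_mul_sq (Icc 1 N) (fun n => TT Q S f ω n / s) (fun n => dz Q ((n + f x : ℕ) : ℤ))
    have h2 : I x ^ 2 ≤ Phi Q N * Phi Q N :=
      h1.trans (mul_le_mul hw3 (shift_sq Q (by have := (hS x hx).2; omega)) (sum_nonneg fun _ _ => sq_nonneg _) hPn)
    have h3 : |I x| ≤ |Phi Q N| := by
      rw [← sq_le_sq]
      linarith [h2, sq (Phi Q N)]
    rwa [abs_of_nonneg hPn] at h3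
  have hmain : ∑ n ∈ Icc 1 N, TT Q S f ω n ^ 2 = s * ∑ x ∈ S, ω x * I x := by
    rw [hI]
    beta_reduce
    simp_rw [mul_sum]
    rw [sum_comm]
    apply sum_congr rfl
    intro n _
    have e : ∀ x ∈ S, s * (ω x * (TT Q S f ω n / s * dz Q ((n + f x : ℕ) : ℤ))) =
        TT Q S f ω n * (ω x * dz Q ((n + f x : ℕ) : ℤ)) := by
      intro x _
      field_simp
    rw [sum_congr rfl e, ← mul_sum, sq]
    rfl
  rw [hmain]
  have h1 : ∑ x ∈ S, ω x * I x ≤ ∑ x ∈ S, (N / Real.log N ^ A + if f x ∈ E then Phi Q N else 0) := by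
    apply sum_le_sum
    intro x hx
    have h0 : ω x * I x ≤ |I x| := by
      refine (le_abs_self _).trans ?_
      rw [abs_mul]
      exact (mul_le_mul_of_nonneg_right (hω x hx) (abs_nonneg _)).trans (by rw [one_mul])
    split_ifs with h
    · have : (0 : ℝ) ≤ N / Real.log N ^ A := by positivity
      linarith [hIall x hx]
    · linarith [hIgood x hx h]
  have h2 : ∑ x ∈ S, (if f x ∈ E then Phi Q N else 0) ≤ (s / y') * Phi Q N := by
    rw [← sum_filter, sum_const, nsmul_eq_mul]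
    apply mul_le_mul_of_nonneg_right _ hPn
    have h3 : ((S.filter (fun x => f x ∈ E)).card : ℝ) ≤ E.card := by
      have : (S.filter (fun x => f x ∈ E)).card ≤ E.card := by
        apply card_le_card_of_injOn f
        · intro x hx
          rw [mem_coe, mem_filter] at hx
          exact hx.2
        · intro x hx x' hx' h
          rw [mem_coe, mem_filter] at hx hx'
          exact hf hx.1 hx'.1 h
      exact_mod_cast this
    refine h3.trans (hEc.trans ?_)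
    rw [div_le_div_iff₀ hy0 hy']
    calc (N : ℝ) * y' ≤ (y' * s) * y' := mul_le_mul_of_nonneg_right hsN hy'.le
      _ = s * (y' * y') := by ring
      _ ≤ s * y := mul_le_mul_of_nonneg_left hyy hs.le
  rw [sum_add_distrib, sum_const, nsmul_eq_mul] at h1
  have h4 : (S.card : ℝ) * (N / Real.log N ^ A) ≤ s * (N / Real.log N ^ A) :=
    mul_le_mul_of_nonneg_right hSs (by positivity)
  calc s * ∑ x ∈ S, ω x * I x ≤ s * (s * (N / Real.log N ^ A) + (s / y') * Phi Q N) :=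
        mul_le_mul_of_nonneg_left (h1.trans (add_le_add h4 h2)) hs.le
    _ = _ := by field_simp

end Pool.Agent.P8H89.IX
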